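import Pool.Agent.H41.WHU.S5
import Pool.Agent.H8.WHS5a

/-!
# Section 5: existence of the operators `N j`
-/

set_option autoImplicit false
open Filter Topology

namespace Pool.Agent.H41.WHU

open Pool.Agent.H17.WH

section abstract

variable {X Y : Type*} [NormedAddCommGroup X] [NormedSpace ℝ X]
  [NormedAddCommGroup Y] [NormedSpace ℝ Y]
variable {Z : Type*} [NormedAddCommGroup Z] [NormedSpace ℝ Z] {ι : Z →L[ℝ] Y}
  {H : Y → X} {k : ℕ} {A : Finset (StrongDual ℝ Y)} {K C : ℝ}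
  {O : Set (StrongDual ℝ X)} {E : StrongDual ℝ X → Submodule ℝ (StrongDual ℝ Z)}
  {T : StrongDual ℝ X →ₗ[ℝ] (Fin k → StrongDual ℝ Z)} {M : ℝ}

theorem dual_ext {x x' : X} (h : ∀ φ : StrongDual ℝ X, φ x = φ x') : x = x' := by
  have h1 : x - x' = 0 := by
    apply norm_eq_zero.1
    obtain ⟨g, -, hg⟩ := exists_dual_vector'' ℝ (x - x')
    have h2 : g (x - x') = 0 := by rw [map_sub, h g, sub_self]
    rw [h2] at hg
    exact_mod_cast hg.symm
  exact sub_eq_zero.1 h1

theorem ALink.exists_N [CompleteSpace X] (hH : WCont H) (L : ALink ι H k A K C O E T M) :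
    ∃ N : Fin k → (Z →L[ℝ] X), ∀ (φ : StrongDual ℝ X) (j : Fin k) (z : Z),
      φ (N j z) = T φ j z := by
  have hpt : ∀ (j : Fin k) (z : Z), ∃ x : X, ∀ φ : StrongDual ℝ X, φ x = T φ j z := by
    intro j z
    let U₀ : StrongDual ℝ X →ₗ[ℝ] ℝ :=
      { toFun := fun φ => T φ j z
        map_add' := by
          intro a b
          rw [map_add]
          rfl
        map_smul' := by
          intro c a
          rw [map_smul]
          rfl }
    let U : StrongDual ℝ (StrongDual ℝ X) := U₀.mkContinuous (M * ‖z‖) (by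
      intro φ
      calc ‖T φ j z‖ ≤ ‖T φ j‖ * ‖z‖ := (T φ j).le_opNorm z
        _ ≤ (M * ‖φ‖) * ‖z‖ := by gcongr; exact L.T_bound φ j
        _ = M * ‖z‖ * ‖φ‖ := by ring)
    have hU : ∀ φ, U φ = T φ j z := fun φ => rfl
    obtain ⟨x, hx⟩ := Pool.Agent.H8.WHS5a.exists_point U (fun ε hε => by
      obtain ⟨B, hB⟩ := L.weakstar hH j z ε hε
      exact ⟨B, fun φ h1 h2 => by rw [hU]; exact hB φ h1 h2⟩)
    exact ⟨x, fun φ => by rw [← hx φ, hU]⟩
  choose n hn using hpt
  have hN : ∀ j, ∃ N : Z →L[ℝ] X, ∀ (φ : StrongDual ℝ X) (z : Z), φ (N z) = T φ j z := by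
    intro j
    let N₀ : Z →ₗ[ℝ] X :=
      { toFun := n j
        map_add' := by
          intro a b
          apply dual_ext
          intro φ
          rw [map_add, hn, hn, hn, map_add]
        map_smul' := by
          intro c a
          apply dual_ext
          intro φ
          rw [RingHom.id_apply, map_smul, hn, hn, map_smul] }
    refine ⟨N₀.mkContinuous M ?_, fun φ z => hn j z φ⟩
    intro z
    obtain ⟨g, hg1, hg⟩ := exists_dual_vector'' ℝ (N₀ z)
    have h1 : ‖N₀ z‖ = T g j z := by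
      rw [← hn j z g]
      exact_mod_cast hg.symm
    rw [h1]
    have hM := L.M_nonneg
    calc T g j z ≤ |T g j z| := le_abs_self _
      _ ≤ ‖T g j‖ * ‖z‖ := (T g j).le_opNorm z
      _ ≤ (M * ‖g‖) * ‖z‖ := by gcongr; exact L.T_bound g j
      _ ≤ (M * 1) * ‖z‖ := by gcongr
      _ = M * ‖z‖ := by ring
  choose N hN using hN
  exact ⟨N, fun φ j z => hN j φ z⟩

end abstract

theorem exists_opBound {V W : Type*} [NormedAddCommGroup V] [NormedSpace ℝ V]
    [NormedAddCommGroup W] [NormedSpace ℝ W] {k : ℕ} (T : V →L[ℝ] (Fin k → W)) :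
    ∃ M : ℝ, 0 ≤ M ∧ ∀ φ j, ‖T φ j‖ ≤ M * ‖φ‖ := by
  refine ⟨‖T‖, T.opNorm_nonneg, ?_⟩
  intro φ j
  exact (norm_le_pi_norm (T φ) j).trans (T.le_opNorm φ)

section link

variable {X Y : Type*} [NormedAddCommGroup X] [NormedSpace ℝ X]
  [NormedAddCommGroup Y] [NormedSpace ℝ Y]

theorem exists_aLink {H : Y → X} {k : ℕ} {A : Finset (StrongDual ℝ Y)} {K C : ℝ}
    {Z : Submodule ℝ Y} {O : Set (StrongDual ℝ X)}
    {E : StrongDual ℝ X → Submodule ℝ (StrongDual ℝ Z)} (L : Link H k A K C Z O E)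
    (T : StrongDual ℝ X →L[ℝ] (Fin k → StrongDual ℝ Z))
    (hT : ∀ ζ ∈ O, LinearIndependent ℝ (T ζ) ∧ Submodule.span ℝ (Set.range (T ζ)) = E ζ) :
    ∃ M : ℝ, ALink Z.subtypeL H k A K C O E T.toLinearMap M := by
  obtain ⟨M, hM0, hM⟩ := exists_opBound (V := StrongDual ℝ X) (W := StrongDual ℝ Z) T
  refine ⟨M, ?_⟩
  exact
    { K_pos := L.K_pos
      C_pos := L.C_pos
      M_nonneg := hM0
      iota_norm := fun z => le_refl _
      iota_A := fun l hl z => L.Z_le z.2 l hl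
      isOpen := L.fam.isOpen
      nonempty := L.fam.nonempty
      fd := L.fam.fd
      dim := fun h => L.fam.dim h
      gen := by
        intro θ hθ
        obtain ⟨θ', -, h1, h2⟩ := L.fam.e4 hθ (E θ) (L.fam.fd θ) Set.univ univ_mem
        exact ⟨θ', h1, h2⟩
      strict := L.strict
      good_span := L.good_span
      T_bound := hM
      T_span := hT }

/-- Section 5 -/
theorem exists_N [CompleteSpace X] {H : Y → X} (hH : WCont H) {k : ℕ}
    {A : Finset (StrongDual ℝ Y)} {K C : ℝ} {Z : Submodule ℝ Y} {O : Set (StrongDual ℝ X)}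
    {E : StrongDual ℝ X → Submodule ℝ (StrongDual ℝ Z)} (L : Link H k A K C Z O E)
    (T : StrongDual ℝ X →L[ℝ] (Fin k → StrongDual ℝ Z))
    (hT : ∀ ζ ∈ O, LinearIndependent ℝ (T ζ) ∧ Submodule.span ℝ (Set.range (T ζ)) = E ζ) :
    ∃ N : Fin k → (Z →L[ℝ] X), ∀ (φ : StrongDual ℝ X) (j : Fin k) (z : Z),
      φ (N j z) = T φ j z := by
  obtain ⟨M, hA⟩ := exists_aLink L T hT
  exact hA.exists_N hH

end link

end Pool.Agent.H41.WHU
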