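import Pool.Agent.H17.WH.Link

/-!
# Section 5: the operators `N j`
-/

set_option autoImplicit false
open Filter Topology

namespace Pool.Agent.H41.WHU

open Pool.Agent.H17.WH

variable {X Y : Type*} [NormedAddCommGroup X] [NormedSpace ℝ X]
  [NormedAddCommGroup Y] [NormedSpace ℝ Y]

/-- coefficients with respect to a linearly independent tuple are bounded, uniformly near `θ` -/
theorem coef_bound {V W : Type*} [NormedAddCommGroup V] [NormedSpace ℝ V] [NormedAddCommGroup W]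
    [NormedSpace ℝ W] {k : ℕ} (T : V →ₗ[ℝ] (Fin k → W)) (M : ℝ) (hM0 : 0 ≤ M)
    (hM : ∀ φ j, ‖T φ j‖ ≤ M * ‖φ‖) (θ : V) (hli : LinearIndependent ℝ (T θ)) :
    ∃ c > 0, ∃ r > 0, ∀ φ : V, ‖φ - θ‖ ≤ r → ∀ x : Fin k → ℝ,
      c * ‖x‖ ≤ ‖∑ j, x j • T φ j‖ := by
  set L : (Fin k → ℝ) →ₗ[ℝ] W := Fintype.linearCombination ℝ (T θ) with hL
  have hLx : ∀ x, L x = ∑ j, x j • T θ j := fun x => by
    rw [hL, Fintype.linearCombination_apply]
  have hker : LinearMap.ker L = ⊥ := by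
    rw [LinearMap.ker_eq_bot']
    intro x hx
    rw [hLx] at hx
    funext j
    exact Fintype.linearIndependent_iff.1 hli x hx j
  obtain ⟨K, hK, hanti⟩ := L.exists_antilipschitzWith hker
  have hKpos : (0 : ℝ) < K := hK
  have h1 : ∀ x, ‖x‖ ≤ K * ‖L x‖ := by
    intro x
    have := hanti.le_mul_dist x 0
    simpa [dist_zero_right] using this
  set c1 : ℝ := 1 / K with hc1
  have hc1pos : 0 < c1 := by positivity
  have h2 : ∀ x, c1 * ‖x‖ ≤ ‖L x‖ := by
    intro x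
    rw [hc1, div_mul_eq_mul_div, one_mul, div_le_iff₀ hKpos]
    have := h1 x
    linarith
  refine ⟨c1 / 2, by positivity, c1 / (2 * (k * M + 1)), by positivity, ?_⟩
  intro φ hφ x
  have h3 : ∑ j, x j • T φ j = L x + ∑ j, x j • T (φ - θ) j := by
    rw [hLx, ← Finset.sum_add_distrib]
    refine Finset.sum_congr rfl fun j _ => ?_
    rw [map_sub, Pi.sub_apply, ← smul_add]
    congr 1
    abel
  have h4 : ‖∑ j, x j • T (φ - θ) j‖ ≤ c1 / 2 * ‖x‖ := by
    have h5 : ∀ j ∈ (Finset.univ : Finset (Fin k)), ‖x j • T (φ - θ) j‖ ≤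
        ‖x‖ * (M * ‖φ - θ‖) := by
      intro j _
      rw [norm_smul]
      apply mul_le_mul (norm_le_pi_norm x j) _ (norm_nonneg _) (norm_nonneg _)
      exact hM _ _
    have h6 := norm_sum_le_of_le _ h5
    rw [Finset.sum_const, Finset.card_univ, Fintype.card_fin, nsmul_eq_mul] at h6
    refine h6.trans ?_
    have h7 : (k : ℝ) * M * ‖φ - θ‖ ≤ c1 / 2 := by
      have h8 : (k : ℝ) * M * ‖φ - θ‖ ≤ (k * M + 1) * (c1 / (2 * (k * M + 1))) := by
        apply mul_le_mul _ hφ (norm_nonneg _) (by positivity)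
        linarith
      refine h8.trans (le_of_eq ?_)
      field_simp
    calc (k : ℝ) * (‖x‖ * (M * ‖φ - θ‖)) = (k : ℝ) * M * ‖φ - θ‖ * ‖x‖ := by ring
      _ ≤ c1 / 2 * ‖x‖ := mul_le_mul_of_nonneg_right h7 (norm_nonneg _)
  rw [h3]
  have h9 := norm_sub_le_norm_add (L x) (∑ j, x j • T (φ - θ) j)
  have h10 := h2 x
  linarith

/-- Theorem R in a form without operator norms -/
theorem rep' {V W : Type*} [NormedAddCommGroup V] [NormedSpace ℝ V] [NormedAddCommGroup W]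
    [NormedSpace ℝ W] [CompleteSpace V] [CompleteSpace W] {k : ℕ} {O : Set V}
    {E : V → Submodule ℝ W} (hE : Fam k O E) :
    ∃ (T : V →ₗ[ℝ] (Fin k → W)) (M : ℝ), 0 ≤ M ∧ (∀ φ j, ‖T φ j‖ ≤ M * ‖φ‖) ∧
      ∀ ζ ∈ O, LinearIndependent ℝ (T ζ) ∧ Submodule.span ℝ (Set.range (T ζ)) = E ζ := by
  obtain ⟨T, hT⟩ := hE.rep
  refine ⟨T.toLinearMap, ‖T‖, T.opNorm_nonneg, ?_, hT⟩
  intro φ j
  exact (norm_le_pi_norm (T φ) j).trans (T.le_opNorm φ)

/-- The data of Sections 5 and 6: `Z` is an abstract copy of the subspace `Y₁`. -/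
structure ALink {Z : Type*} [NormedAddCommGroup Z] [NormedSpace ℝ Z] (ι : Z →L[ℝ] Y)
    (H : Y → X) (k : ℕ) (A : Finset (StrongDual ℝ Y)) (K C : ℝ)
    (O : Set (StrongDual ℝ X)) (E : StrongDual ℝ X → Submodule ℝ (StrongDual ℝ Z))
    (T : StrongDual ℝ X →ₗ[ℝ] (Fin k → StrongDual ℝ Z)) (M : ℝ) : Prop where
  K_pos : 0 < K
  C_pos : 0 < C
  M_nonneg : 0 ≤ M
  iota_norm : ∀ z, ‖ι z‖ ≤ ‖z‖
  iota_A : ∀ l ∈ A, ∀ z, l (ι z) = 0
  isOpen : IsOpen O
  nonempty : O.Nonempty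
  fd : ∀ θ, FiniteDimensional ℝ (E θ)
  dim : ∀ {θ}, θ ∈ O → Module.finrank ℝ (E θ) = k
  gen : ∀ {θ}, θ ∈ O → ∃ θ' ∈ O, Disjoint (E θ') (E θ)
  strict : ∀ θ : StrongDual ℝ X, ∃ ξ : Fin k → StrongDual ℝ Y, Good H A K C θ ξ
  good_span : ∀ θ ∈ O, ∀ ξ : Fin k → StrongDual ℝ Y, Good H A K (2 * C) θ ξ →
    Submodule.span ℝ (Set.range fun i => (ξ i).comp ι) = E θ
  T_bound : ∀ φ j, ‖T φ j‖ ≤ M * ‖φ‖
  T_span : ∀ ζ ∈ O, LinearIndependent ℝ (T ζ) ∧ Submodule.span ℝ (Set.range (T ζ)) = E ζ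

variable {Z : Type*} [NormedAddCommGroup Z] [NormedSpace ℝ Z] {ι : Z →L[ℝ] Y}
  {H : Y → X} {k : ℕ} {A : Finset (StrongDual ℝ Y)} {K C : ℝ}
  {O : Set (StrongDual ℝ X)} {E : StrongDual ℝ X → Submodule ℝ (StrongDual ℝ Z)}
  {T : StrongDual ℝ X →ₗ[ℝ] (Fin k → StrongDual ℝ Z)} {M : ℝ}

/-- the coordinates of a good tuple with respect to `T ζ` -/
theorem ALink.exists_coords (L : ALink ι H k A K C O E T M)
    {ζ : StrongDual ℝ X} (hζ : ζ ∈ O) {ξ : Fin k → StrongDual ℝ Y} (hξ : Good H A K C ζ ξ) :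
    ∃ x : Fin k → Fin k → ℝ, ∀ i, (ξ i).comp ι = ∑ j, x i j • T ζ j := by
  have h1 : Good H A K (2 * C) ζ ξ := by
    refine ⟨hξ.1, fun y hy hy' => (hξ.2 y hy hy').trans ?_⟩
    have := L.C_pos
    have h2 : 0 ≤ C * ‖ζ‖ := by positivity
    linarith
  have h2 := L.good_span ζ hζ ξ h1
  have h3 : ∀ i, ∃ x : Fin k → ℝ, ∑ j, x j • T ζ j = (ξ i).comp ι := by
    intro i
    have h4 : (ξ i).comp ι ∈ Submodule.span ℝ (Set.range (T ζ)) := by
      rw [(L.T_span ζ hζ).2, ← h2]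
      exact Submodule.subset_span ⟨i, rfl⟩
    exact (Submodule.mem_span_range_iff_exists_fun ℝ).1 h4
  choose x hx using h3
  exact ⟨x, fun i => (hx i).symm⟩

theorem ALink.norm_comp_le (L : ALink ι H k A K C O E T M) (f : StrongDual ℝ Y) :
    ‖f.comp ι‖ ≤ ‖f‖ := by
  refine (f.comp ι).opNorm_le_bound (norm_nonneg _) fun y => ?_
  calc ‖f (ι y)‖ ≤ ‖f‖ * ‖ι y‖ := f.le_opNorm _
    _ ≤ ‖f‖ * ‖y‖ := by gcongr; exact L.iota_norm y

/-- bounded coordinates near `θ` -/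
theorem ALink.coords_bound (L : ALink ι H k A K C O E T M) {θ : StrongDual ℝ X} (hθ : θ ∈ O) :
    ∃ c > 0, ∃ r > 0, ∀ ζ : StrongDual ℝ X, ‖ζ - θ‖ ≤ r → ζ ∈ O ∧
      ∀ ξ : Fin k → StrongDual ℝ Y, Good H A K C ζ ξ →
      ∃ x : Fin k → Fin k → ℝ, (∀ i, (ξ i).comp ι = ∑ j, x i j • T ζ j) ∧
        ∀ i j, |x i j| ≤ c := by
  obtain ⟨c, hc, r, hr, hcoef⟩ := coef_bound T M L.M_nonneg L.T_bound θ (L.T_span θ hθ).1
  obtain ⟨ρ, hρ, hball⟩ := Metric.isOpen_iff.1 L.isOpen θ hθ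
  have hK := L.K_pos
  refine ⟨K / c, by positivity, min r (ρ / 2), by positivity, ?_⟩
  intro ζ hζ
  have hζO : ζ ∈ O := by
    apply hball
    rw [Metric.mem_ball, dist_eq_norm]
    have := min_le_right r (ρ / 2)
    linarith
  refine ⟨hζO, fun ξ hξ => ?_⟩
  obtain ⟨x, hx⟩ := L.exists_coords hζO hξ
  refine ⟨x, hx, fun i j => ?_⟩
  have h1 : ‖x i‖ ≤ K / c := by
    rw [le_div_iff₀ hc, mul_comm]
    calc c * ‖x i‖ ≤ ‖∑ j, x i j • T ζ j‖ := hcoef _ (hζ.trans (min_le_left _ _)) _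
      _ = ‖(ξ i).comp ι‖ := by rw [hx i]
      _ ≤ ‖ξ i‖ := L.norm_comp_le _
      _ ≤ K := hξ.1 i
  have h2 := norm_le_pi_norm (x i) j
  rw [Real.norm_eq_abs] at h2
  exact h2.trans h1

/-- the key claim of Section 5 -/
theorem ALink.limit_mem (hH : WCont H) (L : ALink ι H k A K C O E T M) {J : Type*}
    (U : Ultrafilter J) (φ : J → StrongDual ℝ X) (hφ1 : ∀ B, ‖φ B‖ ≤ 1)
    (hzero : ∀ x : X, ∀ᶠ B in (U : Filter J), φ B x = 0)
    (S : Fin k → StrongDual ℝ Z) (hS : ∀ i z, Tendsto (fun B => T (φ B) i z) U (𝓝 (S i z)))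
    (j : Fin k) {θ : StrongDual ℝ X} (hθ : θ ∈ O) : S j ∈ E θ := by
  obtain ⟨hli, hspan⟩ := L.T_span θ hθ
  have hθ0 : θ ≠ 0 := by
    intro h0
    have h1 := hli.ne_zero j
    apply h1
    rw [h0, map_zero]
    rfl
  obtain ⟨c, hc, r, hr, hcoef⟩ := L.coords_bound hθ
  set lam : ℝ := min r ‖θ‖ with hlam
  have hlampos : 0 < lam := by
    have : 0 < ‖θ‖ := norm_pos_iff.2 hθ0
    positivity
  have hlr : lam ≤ r := min_le_left _ _
  have hlθ : lam ≤ ‖θ‖ := min_le_right _ _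
  let ζ : J → StrongDual ℝ X := fun B => θ + lam • φ B
  have hζdef : ∀ B, ζ B = θ + lam • φ B := fun B => rfl
  have hζd : ∀ B, ‖ζ B - θ‖ ≤ lam := by
    intro B
    have : ζ B - θ = lam • φ B := by rw [hζdef]; abel
    rw [this, norm_smul, Real.norm_eq_abs, abs_of_pos hlampos]
    calc lam * ‖φ B‖ ≤ lam * 1 := by gcongr; exact hφ1 B
      _ = lam := mul_one _
  have hζn : ∀ B, ‖ζ B‖ ≤ 2 * ‖θ‖ := by
    intro B
    have h1 : ‖ζ B‖ ≤ ‖θ‖ + ‖ζ B - θ‖ := by
      calc ‖ζ B‖ = ‖θ + (ζ B - θ)‖ := by rw [add_sub_cancel]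
        _ ≤ _ := norm_add_le _ _
    have := hζd B
    linarith
  have hex := fun B => L.strict (ζ B)
  choose ξ hξ using hex
  have hex2 := fun B => (hcoef (ζ B) ((hζd B).trans hlr)).2 (ξ B) (hξ B)
  choose x hx hxb using hex2
  -- limits
  have hη := fun i => exists_ulim U (fun B => ξ B i) K (fun B => (hξ B).1 i)
  choose η hηn hη using hη
  have hz := fun i j => exists_ulim_real U (fun B => x B i j) c
    (Eventually.of_forall fun B => hxb B i j)
  choose z hzn hz using hz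
  have hgood : Good H A K (2 * C) θ η := by
    refine ⟨hηn, ?_⟩
    apply bound_limit hH U A ζ θ (2 * C * ‖θ‖) ξ η
    · intro y'
      have h1 : ∀ᶠ B in (U : Filter J), ζ B (H y') = θ (H y') := by
        filter_upwards [hzero (H y')] with B hB
        rw [hζdef, add_apply, smul_apply, hB, smul_zero,
          add_zero]
      exact Tendsto.congr' (h1.mono fun _ h => h.symm) tendsto_const_nhds
    · refine Eventually.of_forall fun B y' hy' hy'' => ((hξ B).2 y' hy' hy'').trans ?_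
      have h1 := hζn B
      have h2 := L.C_pos
      nlinarith
    · intro i y'
      exact hη i y'
  have hspan2 := L.good_span θ hθ η hgood
  have hηeq : ∀ i, (η i).comp ι = ∑ j', z i j' • (T θ j' + lam • S j') := by
    intro i
    ext w
    have h1 : Tendsto (fun B => ∑ j', x B i j' * (T θ j' w + lam * T (φ B) j' w)) U
        (𝓝 (∑ j', z i j' * (T θ j' w + lam * S j' w))) := by
      apply tendsto_finsetSum
      intro j' _
      exact (hz i j').mul (tendsto_const_nhds.add ((hS j' w).const_mul lam))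
    have h2 : Tendsto (fun B => ∑ j', x B i j' * (T θ j' w + lam * T (φ B) j' w)) U
        (𝓝 (η i (ι w))) := by
      refine (hη i (ι w)).congr fun B => ?_
      have h3 : ξ B i (ι w) = ((ξ B i).comp ι) w := rfl
      rw [h3, hx B i, sum_apply]
      refine Finset.sum_congr rfl fun j' _ => ?_
      rw [hζdef, map_add, map_smul]
      rfl
    have h4 := tendsto_nhds_unique h2 h1
    rw [sum_apply]
    have h5 : ((η i).comp ι) w = η i (ι w) := rfl
    rw [h5, h4]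
    exact Finset.sum_congr rfl fun j' _ => rfl
  have hfd := L.fd θ
  have hle : E θ ≤ Submodule.span ℝ (Set.range fun j' => T θ j' + lam • S j') := by
    rw [← hspan2, Submodule.span_le]
    rintro _ ⟨i, rfl⟩
    show (η i).comp ι ∈ _
    rw [hηeq i]
    exact Submodule.sum_mem _ fun j' _ =>
      Submodule.smul_mem _ _ (Submodule.subset_span ⟨j', rfl⟩)
  have heq : E θ = Submodule.span ℝ (Set.range fun j' => T θ j' + lam • S j') := by
    have hfd2 : FiniteDimensional ℝ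
        (Submodule.span ℝ (Set.range fun j' => T θ j' + lam • S j')) :=
      FiniteDimensional.span_of_finite ℝ (Set.finite_range _)
    apply Submodule.eq_of_le_of_finrank_le hle
    rw [L.dim hθ]
    have := finrank_range_le_card (R := ℝ) (b := fun j' => T θ j' + lam • S j')
    rw [Fintype.card_fin] at this
    exact this
  have h5 : T θ j + lam • S j ∈ E θ := by
    rw [heq]
    exact Submodule.subset_span ⟨j, rfl⟩
  have h6 : T θ j ∈ E θ := by
    rw [← hspan]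
    exact Submodule.subset_span ⟨j, rfl⟩
  have h7 : lam • S j ∈ E θ := by
    have := Submodule.sub_mem _ h5 h6
    simpa using this
  have h8 := Submodule.smul_mem (E θ) lam⁻¹ h7
  rwa [smul_smul, inv_mul_cancel₀ hlampos.ne', one_smul] at h8

/-- the heart of Section 5 -/
theorem ALink.weakstar (hH : WCont H) (L : ALink ι H k A K C O E T M)
    (j : Fin k) (y : Z) (ε : ℝ) (hε : 0 < ε) :
    ∃ B : Finset X, ∀ φ : StrongDual ℝ X, ‖φ‖ ≤ 1 → (∀ a ∈ B, φ a = 0) → |T φ j y| ≤ ε := by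
  classical
  by_contra hcon
  push Not at hcon
  choose φ hφ1 hφ0 hφε using hcon
  -- an ultrafilter on the finite subsets of `X`
  let U : Ultrafilter (Finset X) := Ultrafilter.of atTop
  have hU : (U : Filter (Finset X)) ≤ atTop := Ultrafilter.of_le atTop
  have hzero : ∀ x : X, ∀ᶠ B in (U : Filter (Finset X)), φ B x = 0 := by
    intro x
    apply hU
    filter_upwards [eventually_ge_atTop ({x} : Finset X)] with B hB
    exact hφ0 B x (hB (Finset.mem_singleton_self x))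
  -- the limit of `T (φ B)`
  have hTb : ∀ (i : Fin k) (B : Finset X), ‖T (φ B) i‖ ≤ M := by
    intro i B
    have hM := L.M_nonneg
    calc ‖T (φ B) i‖ ≤ M * ‖φ B‖ := L.T_bound _ _
      _ ≤ M * 1 := by gcongr; exact hφ1 B
      _ = M := mul_one _
  have hS := fun i => exists_ulim U (fun B => T (φ B) i) M (hTb i)
  choose S hSn hS using hS
  -- `S j ≠ 0`
  have hSj : S j ≠ 0 := by
    intro h0
    have h1 := (hS j y).abs
    rw [h0] at h1
    have h2 : ε ≤ |(0 : StrongDual ℝ Z) y| :=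
      ge_of_tendsto h1 (Eventually.of_forall fun B => (hφε B).le)
    rw [zero_apply, abs_zero] at h2
    linarith
  have hmain : ∀ θ ∈ O, S j ∈ E θ := fun θ hθ =>
    L.limit_mem hH U φ hφ1 hzero S hS j hθ
  obtain ⟨θ, hθ⟩ := L.nonempty
  obtain ⟨θ', hθ', hdis⟩ := L.gen hθ
  have h1 := Submodule.disjoint_def.1 hdis (S j) (hmain θ' hθ') (hmain θ hθ)
  exact hSj h1

end Pool.Agent.H41.WHU
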