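import Pool.Agent.H17.WH.Basic

/-!
# Weakly continuous maps in the sense of `WeakSpace` are `WCont`; decomposition of slabs
-/

set_option autoImplicit false
open Filter Topology

namespace Pool.Agent.H41.WHU

open Pool.Agent.H17.WH

variable {X Y : Type*} [NormedAddCommGroup X] [NormedSpace ℝ X]
  [NormedAddCommGroup Y] [NormedSpace ℝ Y]

/-- basic neighbourhoods of the weak topology -/
theorem weak_nhds (y : Y) (U : Set Y)
    (hU : (U : Set (WeakSpace ℝ Y)) ∈ 𝓝 (toWeakSpace ℝ Y y)) :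
    ∃ A : Finset (StrongDual ℝ Y), ∀ z : Y, (∀ l ∈ A, |l (z - y)| ≤ 1) → z ∈ U := by
  classical
  have h1 := LinearMap.weakBilin_withSeminorms (topDualPairing ℝ Y).flip
  obtain ⟨s, r, hr, hsub⟩ := (h1.mem_nhds_iff (toWeakSpace ℝ Y y) U).1 hU
  refine ⟨s.image fun l => (2 / r) • l, ?_⟩
  intro z hz
  apply hsub
  rw [Seminorm.mem_ball]
  apply Seminorm.finset_sup_apply_lt hr
  intro l hl
  have h2 := hz ((2 / r) • l) (Finset.mem_image_of_mem _ hl)
  rw [smul_apply, smul_eq_mul, abs_mul, abs_of_pos (by positivity : (0:ℝ) < 2 / r)] at h2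
  have h3 : |l (z - y)| ≤ r / 2 := by
    rw [div_mul_eq_mul_div, div_le_iff₀ hr] at h2
    linarith
  have h4 : (LinearMap.toSeminormFamily (topDualPairing ℝ Y).flip l) (z - y) = |l (z - y)| := rfl
  have h5 : (LinearMap.toSeminormFamily (topDualPairing ℝ Y).flip l) (z - y) < r := by
    rw [h4]
    linarith
  exact h5

/-- a map which is continuous for the weak topologies is `WCont` -/
theorem wCont_of_continuous (f : WeakSpace ℝ Y → WeakSpace ℝ X) (hf : Continuous f) :
    WCont (fun y : Y => (toWeakSpace ℝ X).symm (f (toWeakSpace ℝ Y y))) := by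
  intro φ y ε hε
  have h1 : Continuous fun x : WeakSpace ℝ X => φ ((toWeakSpace ℝ X).symm x) :=
    WeakBilin.eval_continuous (topDualPairing ℝ X).flip φ
  have h2 : Continuous fun z : WeakSpace ℝ Y => φ ((toWeakSpace ℝ X).symm (f z)) := h1.comp hf
  have h3 := (h2.tendsto (toWeakSpace ℝ Y y)) (Metric.ball_mem_nhds _ hε)
  obtain ⟨A, hA⟩ := weak_nhds y _ h3
  refine ⟨A, fun z hz => ?_⟩
  have h4 := hA z hz
  have h5 : φ ((toWeakSpace ℝ X).symm (f (toWeakSpace ℝ Y z))) ∈
      Metric.ball (φ ((toWeakSpace ℝ X).symm (f (toWeakSpace ℝ Y y)))) ε := h4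
  rw [Metric.mem_ball, Real.dist_eq] at h5
  exact h5.le

/-- the two maps of a weak homeomorphism, normalised at `0` -/
theorem exists_pair (e : WeakSpace ℝ X ≃ₜ WeakSpace ℝ Y) :
    ∃ (H : Y → X) (h : X → Y), WCont H ∧ WCont h ∧ H 0 = 0 ∧ h 0 = 0 ∧ ∀ y, h (H y) = y := by
  let x₀ : X := (toWeakSpace ℝ X).symm (e.symm (toWeakSpace ℝ Y 0))
  let H : Y → X := fun y => (toWeakSpace ℝ X).symm (e.symm (toWeakSpace ℝ Y y)) - x₀
  let h : X → Y := fun x => (toWeakSpace ℝ Y).symm (e (toWeakSpace ℝ X (x + x₀)))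
  have hH : WCont H := by
    intro φ y ε hε
    obtain ⟨A, hA⟩ := wCont_of_continuous (fun z => e.symm z) e.symm.continuous φ y ε hε
    refine ⟨A, fun z hz => ?_⟩
    have h1 := hA z hz
    have h2 : φ (H z) - φ (H y) =
        φ ((toWeakSpace ℝ X).symm (e.symm (toWeakSpace ℝ Y z))) -
        φ ((toWeakSpace ℝ X).symm (e.symm (toWeakSpace ℝ Y y))) := by
      show φ (_ - x₀) - φ (_ - x₀) = _
      rw [map_sub, map_sub]
      ring
    rw [h2]
    exact h1
  have hh : WCont h := by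
    intro φ x ε hε
    obtain ⟨A, hA⟩ := wCont_of_continuous (fun z => e z) e.continuous φ (x + x₀) ε hε
    refine ⟨A, fun z hz => ?_⟩
    apply hA (z + x₀)
    intro l hl
    have h1 : z + x₀ - (x + x₀) = z - x := by abel
    rw [h1]
    exact hz l hl
  have h1 : ∀ y, h (H y) = y := by
    intro y
    show (toWeakSpace ℝ Y).symm (e (toWeakSpace ℝ X
      ((toWeakSpace ℝ X).symm (e.symm (toWeakSpace ℝ Y y)) - x₀ + x₀))) = y
    rw [sub_add_cancel, LinearEquiv.apply_symm_apply, Homeomorph.apply_symm_apply,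
      LinearEquiv.symm_apply_apply]
  have h2 : H 0 = 0 := sub_self _
  refine ⟨H, h, hH, hh, h2, ?_, h1⟩
  have h3 := h1 0
  rw [h2] at h3
  exact h3

/-- points of a small slab are close to the common kernel -/
theorem slab_decomp (B : Finset (StrongDual ℝ X)) (η : ℝ) (hη : 0 < η) :
    ∃ D : Finset (StrongDual ℝ X), ∀ z ∈ slab D, ∃ c : X, ‖c‖ ≤ η ∧ z - c ∈ perp B := by
  classical
  let G : X →L[ℝ] (B → ℝ) := ContinuousLinearMap.pi fun l => (l : StrongDual ℝ X)
  obtain ⟨s, hs⟩ := G.toLinearMap.rangeRestrict.exists_rightInverse_of_surjective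
    (LinearMap.range_rangeRestrict _)
  have hs' : ∀ r : LinearMap.range G.toLinearMap, G (s r) = r := by
    intro r
    have := LinearMap.congr_fun hs r
    simpa using congrArg Subtype.val this
  let S : LinearMap.range G.toLinearMap →L[ℝ] X := LinearMap.toContinuousLinearMap s
  let Gr : X →L[ℝ] LinearMap.range G.toLinearMap := G.codRestrict _ (fun y => ⟨y, rfl⟩)
  set R : ℝ := (‖S‖ + 1) / η with hR
  have hRpos : 0 < R := by positivity
  refine ⟨B.image fun l => R • l, ?_⟩
  intro z hz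
  have h1 : ∀ l ∈ B, |l z| ≤ 1 / R := by
    intro l hl
    have h2 := hz (R • l) (Finset.mem_image_of_mem _ hl)
    rw [smul_apply, smul_eq_mul, abs_mul, abs_of_pos hRpos] at h2
    rw [le_div_iff₀ hRpos]
    linarith
  refine ⟨S (Gr z), ?_, ?_⟩
  · have h2 : ‖Gr z‖ ≤ 1 / R := by
      have : ‖Gr z‖ = ‖G z‖ := rfl
      rw [this, pi_norm_le_iff_of_nonneg (by positivity)]
      rintro ⟨l, hl⟩
      exact h1 l hl
    calc ‖S (Gr z)‖ ≤ ‖S‖ * ‖Gr z‖ := S.le_opNorm _
      _ ≤ (‖S‖ + 1) * (1 / R) := by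
          apply mul_le_mul _ h2 (norm_nonneg _) (by positivity)
          linarith
      _ = η := by
          rw [hR]
          field_simp
  · intro l hl
    have h1 : G (S (Gr z)) = G z := hs' (Gr z)
    have h2 := congrFun h1 ⟨l, hl⟩
    have h3 : l (S (Gr z)) = l z := h2
    rw [map_sub, h3, sub_self]

end Pool.Agent.H41.WHU
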